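import Pool.Agent.Work.MP_1d0aa8_co.Final

/-!
# Szabo's conjecture on AP-intersecting families for all large `N`

For all large `N` the maximum size `t(N)` of a family of subsets of `[N]` any two of which meet in a
nonempty arithmetic progression is `N.choose 2 + 1 + (N - 1) / 4`, and it is attained by a family
whose members all share a common element.
-/

set_option autoImplicit false

namespace Pool.Agent.Results.MP_1d0aa8_co.AllLargeN

/-- There is `N0` such that for every `N ≥ N0` some family `F` of subsets of `{1, …, N}`, any two of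
which meet in a nonempty arithmetic progression, has the maximum possible size among all such
families, has a point common to all its members, and has exactly `N.choose 2 + 1 + (N - 1) / 4`
members. -/
theorem result : ∃ N0 : ℕ, ∀ N : ℕ, N0 ≤ N →
    ∃ F : Finset (Finset ℕ),
      (F ⊆ (Finset.Icc 1 N).powerset ∧
        ∀ A ∈ F, ∀ B ∈ F, A ≠ B →
          ∃ a d k : ℕ, A ∩ B = (Finset.range (k + 1)).image (fun i => a + i * d)) ∧
      (∀ G : Finset (Finset ℕ),
        (G ⊆ (Finset.Icc 1 N).powerset ∧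
          ∀ A ∈ G, ∀ B ∈ G, A ≠ B →
            ∃ a d k : ℕ, A ∩ B = (Finset.range (k + 1)).image (fun i => a + i * d)) →
        G.card ≤ F.card) ∧
      (∃ x : ℕ, ∀ A ∈ F, x ∈ A) ∧ F.card = N.choose 2 + 1 + (N - 1) / 4 := by
  obtain ⟨N0, h⟩ := Pool.Agent.Work.MP_1d0aa8_co.thmAll
  refine ⟨N0, fun N hN => ?_⟩
  obtain ⟨F, ⟨h1, h2⟩, h3, h4, h5⟩ := h N hN
  refine ⟨F, ⟨h1, ?_⟩, ?_, h4, h5⟩
  · intro A hA B hB hne
    obtain ⟨a, d, k, hk⟩ := h2 A hA B hB hne
    refine ⟨a, d, k, ?_⟩
    convert hk
  · intro G hG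
    apply h3 G
    refine ⟨hG.1, ?_⟩
    intro A hA B hB hne
    obtain ⟨a, d, k, hk⟩ := hG.2 A hA B hB hne
    refine ⟨a, d, k, ?_⟩
    convert hk

end Pool.Agent.Results.MP_1d0aa8_co.AllLargeN
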