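import Pool.Agent.Work.MP_1d0aa8_co.NS.Large

/-!
# The structure of the large AP-intersecting families, for all large `N`

For all large `N` every family of subsets of `[N]` with more than `N.choose 2 + 1` members, any two
of which meet in a nonempty arithmetic progression, is a star, and a quantitative description of it.
-/

set_option autoImplicit false

namespace Pool.Agent.Results.MP_1d0aa8_co.LargeFamilies

/-- There is `N0` such that for every `N ≥ N0` and `r ≥ 1` and every family `G` of at least
`N.choose 2 + 1 + r` subsets of `{1, …, N}`, any two of which meet in a nonempty arithmetic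
progression, there is a point `x` common to all members of `G`, and `r`, plus the number of
`y ∈ {1, …, N}` such that `{x, y}` is not a member, plus the number of pairs of points different
from `x` which are contained in no member, is at most the number of `d` with
`1 ≤ d ≤ (N - 1) / 4` such that the five term progression with difference `d` and centre `x` is a
member. -/
theorem result : ∃ N0 : ℕ, ∀ N : ℕ, N0 ≤ N → ∀ (G : Finset (Finset ℕ)) (r : ℕ),
    G ⊆ (Finset.Icc 1 N).powerset →
    (∀ A ∈ G, ∀ B ∈ G, A ≠ B →
      ∃ a d k : ℕ, A ∩ B = (Finset.range (k + 1)).image (fun i => a + i * d)) →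
    1 ≤ r → N.choose 2 + 1 + r ≤ G.card →
    ∃ x : ℕ, (∀ A ∈ G, x ∈ A) ∧
      r + ((Finset.Icc 1 N).filter (fun y => ({x, y} : Finset ℕ) ∉ G)).card +
        ((((Finset.Icc 1 N).erase x).powersetCard 2).filter (fun s => ∀ A ∈ G, ¬ s ⊆ A)).card ≤
        {d | d ∈ Finset.Icc 1 ((N - 1) / 4) ∧ ∃ c : ℕ, c + 2 * d = x ∧
          (Finset.range 5).image (fun i => c + i * d) ∈ G}.ncard :=
  Pool.Agent.Work.MP_1d0aa8_co.NS.large_nat

end Pool.Agent.Results.MP_1d0aa8_co.LargeFamilies
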