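import Pool.Agent.Work.MP_1d0aa8_co.NS.Final

/-!
# The largest non-starred AP-intersecting families, for all large `N`

For all large `N` the maximum size of a family of subsets of `[N]`, any two of which meet in a
nonempty arithmetic progression and which have no common point, is exactly `N.choose 2 + 1`.
-/

set_option autoImplicit false

namespace Pool.Agent.Results.MP_1d0aa8_co.NonStarred

/-- There is `N0` such that for every `N ≥ N0` the number `N.choose 2 + 1` is the maximum size of a
family `G` of subsets of `{1, …, N}`, any two of which meet in a nonempty arithmetic progression,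
such that no point lies in all members of `G`. -/
theorem result : ∃ N0 : ℕ, ∀ N : ℕ, N0 ≤ N →
    IsGreatest {m : ℕ | ∃ G : Finset (Finset ℕ), G ⊆ (Finset.Icc 1 N).powerset ∧
      (∀ A ∈ G, ∀ B ∈ G, A ≠ B →
        ∃ a d k : ℕ, A ∩ B = (Finset.range (k + 1)).image (fun i => a + i * d)) ∧
      (¬ ∃ x : ℕ, ∀ A ∈ G, x ∈ A) ∧ G.card = m} (N.choose 2 + 1) :=
  Pool.Agent.Work.MP_1d0aa8_co.NS.final

end Pool.Agent.Results.MP_1d0aa8_co.NonStarred
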