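import Pool.Agent.Work.MP_1d0aa8_co.SF.Fin

/-!
# Szabo's bound for every `N` for AP-intersecting families with short intersections

Let `F` be a family of subsets of `[N]`, any two of which meet in a nonempty arithmetic
progression, such that no 7-term progression contained in a member has its first six terms or its
last six terms inside another member. This holds if any two members share at most five elements,
and also if no member contains a 7-term progression. Then, for EVERY `N`, the family has at most
`N.choose 2 + 1 + (N - 1) / 4` members, and at most `N.choose 2 + 1` if no point is common to all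
members. For `N ≥ 1` the first bound is attained by a starred family whose members have at most
five elements.
-/

set_option autoImplicit false

namespace Pool.Agent.Results.MP_1d0aa8_co.ShortIntersections

/-- (1) The bounds, for every `N` and every AP-intersecting family which satisfies one of three
conditions; (2) a starred family with members of size at most five attains the first bound. -/
theorem result :
    (∀ (N : ℕ) (F : Finset (Finset ℕ)),
      (F ⊆ (Finset.Icc 1 N).powerset ∧
        ∀ A ∈ F, ∀ B ∈ F, A ≠ B →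
          ∃ a d k : ℕ, A ∩ B = (Finset.range (k + 1)).image (fun i => a + i * d)) →
      ((∀ A ∈ F, ∀ B ∈ F, A ≠ B → ∀ a d : ℕ, 1 ≤ d →
          (Finset.range 7).image (fun i => a + i * d) ⊆ A →
            ¬ (Finset.range 6).image (fun i => a + i * d) ⊆ B ∧
              ¬ (Finset.range 6).image (fun i => a + (i + 1) * d) ⊆ B) ∨
        (∀ A ∈ F, ∀ B ∈ F, A ≠ B → (A ∩ B).card ≤ 5) ∨
        (∀ A ∈ F, ∀ a d : ℕ, 1 ≤ d → ¬ (Finset.range 7).image (fun i => a + i * d) ⊆ A)) →
      F.card ≤ N.choose 2 + 1 + (N - 1) / 4 ∧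
        ((¬ ∃ x : ℕ, ∀ A ∈ F, x ∈ A) → F.card ≤ N.choose 2 + 1)) ∧
    ∀ N : ℕ, 1 ≤ N → ∃ F : Finset (Finset ℕ),
      (F ⊆ (Finset.Icc 1 N).powerset ∧
        ∀ A ∈ F, ∀ B ∈ F, A ≠ B →
          ∃ a d k : ℕ, A ∩ B = (Finset.range (k + 1)).image (fun i => a + i * d)) ∧
      (∀ A ∈ F, A.card ≤ 5) ∧
      (∃ x : ℕ, ∀ A ∈ F, x ∈ A) ∧ F.card = N.choose 2 + 1 + (N - 1) / 4 := by
  refine ⟨fun N F h hc => ?_, fun _ hN => Pool.Agent.Work.MP_1d0aa8_co.SF.lower hN⟩
  have hs : Pool.Agent.Work.MP_1d0aa8_co.SF.SN F := by
    rcases hc with hc | hc | hc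
    · exact hc
    · exact Pool.Agent.Work.MP_1d0aa8_co.SF.SN_of_card hc
    · exact Pool.Agent.Work.MP_1d0aa8_co.SF.SN_of_free hc
  exact ⟨Pool.Agent.Work.MP_1d0aa8_co.SF.upper h hs,
    Pool.Agent.Work.MP_1d0aa8_co.SF.upper' h hs⟩

end Pool.Agent.Results.MP_1d0aa8_co.ShortIntersections
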